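import Mathlib
import Pool.Agent.Work.MP_9fcdee_mp.G3_Density

/-!
# Completeness of the eigenfunctions of the operator with potential i|x|^alpha, 0 < alpha < 2/3

Both realisations (on the line, and on the half-line with the Dirichlet condition).
-/

set_option autoImplicit false

open Set MeasureTheory

namespace Pool.Agent.Results.MP_9fcdee_mp.Completeness

/-- The graph of the maximal operator `A u = -u'' + i|x|^α u` in `L²(ℝ)`: the function `u` has a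
representative `y` in `H²_loc(ℝ)` (with derivative `y₁` and second derivative `y₂`, locally square
integrable), and `A u = -y₂ + i|x|^α y` is the element `h` of `L²(ℝ)`. -/
def OpLine (α : ℝ) (u h : Lp ℂ 2 (volume : Measure ℝ)) : Prop :=
  ∃ y y₁ y₂ : ℝ → ℂ, u =ᵐ[volume] y ∧
    (∀ R : ℝ, MemLp y₂ 2 (volume.restrict (Icc (-R) R))) ∧
    (∀ x : ℝ, y x = y 0 + ∫ t in (0:ℝ)..x, y₁ t) ∧
    (∀ x : ℝ, y₁ x = y₁ 0 + ∫ t in (0:ℝ)..x, y₂ t) ∧
    h =ᵐ[volume] fun x => - y₂ x + Complex.I * ((|x| ^ α : ℝ) : ℂ) * y x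

/-- The graph of the maximal operator in `L²(0,∞)` with the Dirichlet condition `u(0) = 0`. -/
def OpHalf (α : ℝ) (u h : Lp ℂ 2 (volume.restrict (Ioi (0:ℝ)))) : Prop :=
  ∃ y y₁ y₂ : ℝ → ℂ, u =ᵐ[volume.restrict (Ioi (0:ℝ))] y ∧ y 0 = 0 ∧
    (∀ R : ℝ, MemLp y₂ 2 (volume.restrict (Icc 0 R))) ∧
    (∀ x : ℝ, 0 ≤ x → y x = y 0 + ∫ t in (0:ℝ)..x, y₁ t) ∧
    (∀ x : ℝ, 0 ≤ x → y₁ x = y₁ 0 + ∫ t in (0:ℝ)..x, y₂ t) ∧
    h =ᵐ[volume.restrict (Ioi (0:ℝ))] fun x => - y₂ x + Complex.I * ((|x| ^ α : ℝ) : ℂ) * y x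

/-- Eigenfunctions on the line: nonzero `u` in the domain with `A u = l u`. -/
def IsEigenLine (α : ℝ) (u : Lp ℂ 2 (volume : Measure ℝ)) : Prop :=
  u ≠ 0 ∧ ∃ l : ℂ, OpLine α u (l • u)

/-- Dirichlet eigenfunctions on the half-line. -/
def IsEigenHalf (α : ℝ) (u : Lp ℂ 2 (volume.restrict (Ioi (0:ℝ)))) : Prop :=
  u ≠ 0 ∧ ∃ l : ℂ, OpHalf α u (l • u)

theorem result (α : ℝ) (hα : 0 < α) (hα' : α < 2 / 3) :
    (Submodule.span ℂ {u : Lp ℂ 2 (volume : Measure ℝ) |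
      IsEigenLine α u}).topologicalClosure = ⊤ ∧
    (Submodule.span ℂ {u : Lp ℂ 2 (volume.restrict (Ioi (0:ℝ))) |
      IsEigenHalf α u}).topologicalClosure = ⊤ :=
  ⟨Pool.Agent.Work.MP_9fcdee_mp.line_dense hα (by linarith),
    Pool.Agent.Work.MP_9fcdee_mp.half_dense hα (by linarith)⟩

end Pool.Agent.Results.MP_9fcdee_mp.Completeness
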